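import Pool.Agent.W207.SW.SpecS

/-!
# Task SW-GA1: analyticity, continuity and growth of `GG`
-/

set_option autoImplicit false

open Complex Filter Topology Set MeasureTheory
open scoped BigOperators

namespace W334.SW

open W207.SW

/-- `w log w` -/
noncomputable def wl (w : ℂ) : ℂ := w * Complex.log w

theorem wl_norm (w : ℂ) : ‖wl w‖ ≤ |‖w‖ * Real.log ‖w‖| + Real.pi * ‖w‖ := by
  unfold wl
  rw [norm_mul]
  have h1 : ‖Complex.log w‖ ≤ |Real.log ‖w‖| + Real.pi := by
    refine (Complex.norm_le_abs_re_add_abs_im _).trans ?_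
    rw [Complex.log_re, Complex.log_im]
    gcongr
    exact Complex.abs_arg_le_pi w
  calc ‖w‖ * ‖Complex.log w‖ ≤ ‖w‖ * (|Real.log ‖w‖| + Real.pi) := by gcongr
    _ = |‖w‖ * Real.log ‖w‖| + Real.pi * ‖w‖ := by
      rw [abs_mul, abs_norm]; ring

theorem wl_cont : ContinuousOn wl {z | 0 ≤ z.im} := by
  intro w hw
  by_cases h0 : w = 0
  · subst h0
    apply ContinuousAt.continuousWithinAt
    unfold ContinuousAt
    have e : wl 0 = 0 := by unfold wl; simp
    rw [e]
    have h1 : Tendsto (fun w : ℂ => |‖w‖ * Real.log ‖w‖| + Real.pi * ‖w‖) (𝓝 0) (𝓝 0) := by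
      have hc : Continuous (fun w : ℂ => |‖w‖ * Real.log ‖w‖| + Real.pi * ‖w‖) := by
        have := Real.continuous_mul_log.comp (continuous_norm (E := ℂ))
        exact (this.abs).add (continuous_const.mul continuous_norm)
      have h2 := hc.tendsto 0
      simpa using h2
    exact squeeze_zero_norm wl_norm h1
  · have hl : ContinuousWithinAt Complex.log {z | 0 ≤ z.im} w := by
      by_cases hs : w ∈ slitPlane
      · exact (continuousAt_clog hs).continuousWithinAt
      · have h1 : ¬(0 < w.re ∨ w.im ≠ 0) := hs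
        rw [not_or, not_lt, not_not] at h1
        apply Complex.continuousWithinAt_log_of_re_neg_of_im_zero _ h1.2
        rcases h1.1.lt_or_eq with h2 | h2
        · exact h2
        · exact absurd (Complex.ext h2 h1.2) h0
    exact continuousWithinAt_id.mul hl

theorem wl_diff (w : ℂ) (hw : 0 < w.im) : DifferentiableAt ℂ wl w := by
  have hs : w ∈ slitPlane := Or.inr hw.ne'
  exact differentiableAt_id.mul (differentiableAt_id.clog hs)

theorem wl_growth (w : ℂ) : ‖wl w‖ ≤ 7 * (1 + ‖w‖) ^ (3 / 2 : ℝ) := by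
  have hx : 0 ≤ ‖w‖ := norm_nonneg w
  set x := ‖w‖ with hxd
  have h1 : 1 ≤ (1 + x) ^ (3 / 2 : ℝ) := Real.one_le_rpow (by linarith) (by norm_num)
  have h2 : x ^ (3 / 2 : ℝ) ≤ (1 + x) ^ (3 / 2 : ℝ) :=
    Real.rpow_le_rpow hx (by linarith) (by norm_num)
  have h3 : x ≤ (1 + x) ^ (3 / 2 : ℝ) := by
    have : (1 + x) ^ (1 : ℝ) ≤ (1 + x) ^ (3 / 2 : ℝ) :=
      Real.rpow_le_rpow_of_exponent_le (by linarith) (by norm_num)
    rw [Real.rpow_one] at this
    linarith
  have h4 : |x * Real.log x| ≤ 1 + 2 * x ^ (3 / 2 : ℝ) := by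
    rcases hx.eq_or_lt with h0 | h0
    · rw [← h0]; simp
    · have hp : 0 ≤ x ^ (3 / 2 : ℝ) := Real.rpow_nonneg hx _
      rcases le_total x 1 with h5 | h5
      · have := Real.abs_log_mul_self_lt x h0 h5
        rw [mul_comm] at this
        linarith
      · have h6 : Real.log x ≤ x ^ (1 / 2 : ℝ) / (1 / 2) := Real.log_le_rpow_div hx (by norm_num)
        have h7 : 0 ≤ Real.log x := Real.log_nonneg h5
        rw [abs_of_nonneg (mul_nonneg hx h7)]
        have h8 : x ^ (3 / 2 : ℝ) = x * x ^ (1 / 2 : ℝ) := by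
          rw [show (3 / 2 : ℝ) = 1 + 1 / 2 by norm_num, Real.rpow_add h0, Real.rpow_one]
        rw [h8]
        nlinarith [mul_le_mul_of_nonneg_left h6 hx]
  have h5 := wl_norm w
  rw [← hxd] at h5
  have h6 : Real.pi ≤ 4 := Real.pi_le_four
  nlinarith [mul_le_mul_of_nonneg_right h6 hx]

theorem GG_eq (Lam : ℝ) (z : ℂ) :
    GG Lam z = (I / Real.pi) * (wl (z - Lam) + wl (z + Lam) - 2 * wl z) := rfl

theorem GA1 (Lam : ℝ) (hL : 0 < Lam) : DifferentiableOn ℂ (GG Lam) {z | 0 < z.im} ∧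
    ContinuousOn (GG Lam) {z | 0 ≤ z.im} ∧
    ∃ C : ℝ, 0 < C ∧ ∀ z, ‖GG Lam z‖ ≤ C * (1 + ‖z‖) ^ (3 / 2 : ℝ) := by
  refine ⟨?_, ?_, ?_⟩
  · intro z hz
    have hz' : 0 < z.im := hz
    apply DifferentiableAt.differentiableWithinAt
    have h1 : DifferentiableAt ℂ (fun z : ℂ => wl (z - Lam)) z := by
      have := wl_diff (z - Lam) (by simpa using hz')
      exact this.comp z (differentiableAt_id.sub_const _)
    have h2 : DifferentiableAt ℂ (fun z : ℂ => wl (z + Lam)) z := by
      have := wl_diff (z + Lam) (by simpa using hz')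
      exact this.comp z (differentiableAt_id.add_const _)
    exact ((h1.add h2).sub ((wl_diff z hz').const_mul 2)).const_mul _
  · have h1 : ContinuousOn (fun z : ℂ => wl (z - Lam)) {z | 0 ≤ z.im} := by
      refine wl_cont.comp (continuous_id.sub continuous_const).continuousOn ?_
      intro z hz
      have hz' : 0 ≤ z.im := hz
      change 0 ≤ (z - Lam).im
      simpa using hz'
    have h2 : ContinuousOn (fun z : ℂ => wl (z + Lam)) {z | 0 ≤ z.im} := by
      refine wl_cont.comp (continuous_id.add continuous_const).continuousOn ?_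
      intro z hz
      have hz' : 0 ≤ z.im := hz
      change 0 ≤ (z + Lam).im
      simpa using hz'
    exact continuousOn_const.mul ((h1.add h2).sub (continuousOn_const.mul wl_cont))
  · refine ⟨28 * (1 + Lam) ^ (3 / 2 : ℝ), by positivity, fun z => ?_⟩
    have key : ∀ w : ℂ, ‖w‖ ≤ ‖z‖ + Lam →
        ‖wl w‖ ≤ 7 * ((1 + Lam) ^ (3 / 2 : ℝ) * (1 + ‖z‖) ^ (3 / 2 : ℝ)) := by
      intro w hw
      refine (wl_growth w).trans ?_
      rw [← Real.mul_rpow (by positivity) (by positivity)]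
      gcongr
      nlinarith [norm_nonneg z, mul_nonneg hL.le (norm_nonneg z)]
    have hLn : ‖(Lam : ℂ)‖ = Lam := by
      rw [Complex.norm_real, Real.norm_eq_abs, abs_of_pos hL]
    have k1 := key (z - Lam) (by
      have := norm_sub_le z (Lam : ℂ)
      rwa [hLn] at this)
    have k2 := key (z + Lam) (by
      have := norm_add_le z (Lam : ℂ)
      rwa [hLn] at this)
    have k3 := key z (by linarith)
    set Q := (1 + Lam) ^ (3 / 2 : ℝ) * (1 + ‖z‖) ^ (3 / 2 : ℝ) with hQ
    have hQ0 : 0 ≤ Q := by positivity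
    have h1 : ‖(I / Real.pi : ℂ)‖ ≤ 1 := by
      rw [norm_div, Complex.norm_I, Complex.norm_real, Real.norm_eq_abs, abs_of_pos Real.pi_pos]
      rw [div_le_one Real.pi_pos]
      linarith [Real.pi_gt_three]
    have h2 : ‖wl (z - Lam) + wl (z + Lam) - 2 * wl z‖ ≤ 28 * Q := by
      calc ‖wl (z - Lam) + wl (z + Lam) - 2 * wl z‖
          ≤ ‖wl (z - Lam) + wl (z + Lam)‖ + ‖2 * wl z‖ := norm_sub_le _ _
        _ ≤ ‖wl (z - Lam)‖ + ‖wl (z + Lam)‖ + 2 * ‖wl z‖ := by
          have := norm_add_le (wl (z - Lam)) (wl (z + Lam))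
          rw [norm_mul]
          have e : ‖(2 : ℂ)‖ = 2 := by simp
          rw [e]
          linarith
        _ ≤ 28 * Q := by linarith
    rw [GG_eq, norm_mul]
    calc ‖(I / Real.pi : ℂ)‖ * ‖wl (z - Lam) + wl (z + Lam) - 2 * wl z‖ ≤ 1 * (28 * Q) := by
          gcongr
      _ = 28 * (1 + Lam) ^ (3 / 2 : ℝ) * (1 + ‖z‖) ^ (3 / 2 : ℝ) := by rw [hQ]; ring

end W334.SW
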